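import Mathlib
import Pool.Agent.VM.StmtsW

/-!
# AVG: averaging over the progressions with difference `d`
-/

set_option autoImplicit false

namespace Pool.Agent.VM.H36

open Finset

theorem avg : AvgStmt := by
  intro q K d X f hK hd hdK hX
  have h1 : (K : ℂ) * ∑ n ∈ Finset.Icc (1 : ℤ) (X : ℤ), f n =
      ∑ n ∈ Finset.Icc (-(q : ℤ)) (q : ℤ),
        ∑ m ∈ (Finset.Icc 1 K).filter (fun m : ℕ => 1 ≤ n + (d : ℤ) * m ∧
          n + (d : ℤ) * m ≤ (X : ℤ)), f (n + (d : ℤ) * m) := by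
    have h0 : (K : ℂ) * ∑ n ∈ Finset.Icc (1 : ℤ) (X : ℤ), f n =
        ∑ m ∈ Finset.Icc 1 K, ∑ n ∈ Finset.Icc (1 : ℤ) (X : ℤ), f n := by
      rw [Finset.sum_const, Nat.card_Icc, nsmul_eq_mul, Nat.add_sub_cancel]
    rw [h0]
    have h2 : ∀ m ∈ Finset.Icc 1 K, ∑ x ∈ Finset.Icc (1 : ℤ) (X : ℤ), f x =
        ∑ n ∈ (Finset.Icc (-(q : ℤ)) (q : ℤ)).filter (fun n : ℤ => 1 ≤ n + (d : ℤ) * m ∧
          n + (d : ℤ) * m ≤ (X : ℤ)), f (n + (d : ℤ) * m) := by
      intro m hm
      rw [Finset.mem_Icc] at hm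
      have hdm : (d : ℤ) * m ≤ q := by
        have : d * m ≤ q := le_trans (Nat.mul_le_mul_left d hm.2) hdK
        exact_mod_cast this
      have hdm0 : (0 : ℤ) ≤ (d : ℤ) * m := by positivity
      have hXq : (X : ℤ) ≤ q := by exact_mod_cast hX
      refine Finset.sum_bij' (fun x _ => x - (d : ℤ) * m) (fun n _ => n + (d : ℤ) * m)
        ?_ ?_ ?_ ?_ ?_
      · intro x hx
        rw [Finset.mem_Icc] at hx
        simp only [Finset.mem_filter, Finset.mem_Icc]
        refine ⟨⟨by linarith [hx.1], by linarith [hx.2]⟩, ?_, ?_⟩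
        · linarith [hx.1]
        · linarith [hx.2]
      · intro n hn
        simp only [Finset.mem_filter, Finset.mem_Icc] at hn
        rw [Finset.mem_Icc]
        exact hn.2
      · intro x _
        ring
      · intro n _
        ring
      · intro x _
        congr 1
        ring
    rw [Finset.sum_congr rfl h2]
    simp_rw [Finset.sum_filter]
    rw [Finset.sum_comm]
  calc (K : ℝ) * ‖∑ n ∈ Finset.Icc (1 : ℤ) (X : ℤ), f n‖
      = ‖(K : ℂ) * ∑ n ∈ Finset.Icc (1 : ℤ) (X : ℤ), f n‖ := by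
        rw [norm_mul, Complex.norm_natCast]
    _ ≤ _ := by
        rw [h1]
        exact norm_sum_le _ _

end Pool.Agent.VM.H36
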