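import Mathlib
import Pool.Agent.VM.Stmts

/-!
# LMC: from the bilinear to the linear decoupling inequality
-/

set_option autoImplicit false

namespace Pool.Agent.VM.H36

open Finset

/-! ## Averages -/

theorem av_mono (q l : ℕ) (Φ Ψ : (Fin l → ℤ) → ℝ) (h : ∀ ζ, Φ ζ ≤ Ψ ζ) :
    Av q l Φ ≤ Av q l Ψ := by
  unfold Av
  have hq : (0 : ℝ) ≤ (q : ℝ) ^ l := by positivity
  exact div_le_div_of_nonneg_right (Finset.sum_le_sum fun ζ _ => h _) hq

theorem av_nonneg (q l : ℕ) (Φ : (Fin l → ℤ) → ℝ) (h : ∀ ζ, 0 ≤ Φ ζ) : 0 ≤ Av q l Φ := by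
  unfold Av
  have hq : (0 : ℝ) ≤ (q : ℝ) ^ l := by positivity
  exact div_nonneg (Finset.sum_nonneg fun ζ _ => h _) hq

theorem av_add (q l : ℕ) (Φ Ψ : (Fin l → ℤ) → ℝ) :
    Av q l (fun ζ => Φ ζ + Ψ ζ) = Av q l Φ + Av q l Ψ := by
  unfold Av
  rw [Finset.sum_add_distrib, add_div]

theorem av_smul (q l : ℕ) (a : ℝ) (Φ : (Fin l → ℤ) → ℝ) :
    Av q l (fun ζ => a * Φ ζ) = a * Av q l Φ := by
  unfold Av
  rw [← Finset.mul_sum, mul_div_assoc]

theorem av_sum {ι : Type} (q l : ℕ) (T : Finset ι) (Φ : ι → (Fin l → ℤ) → ℝ) :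
    Av q l (fun ζ => ∑ i ∈ T, Φ i ζ) = ∑ i ∈ T, Av q l (Φ i) := by
  unfold Av
  rw [Finset.sum_comm, Finset.sum_div]

/-! ## Residue classes -/

theorem g_split (p q : ℕ) {l : ℕ} (E : Fin l → ℤ → ℤ) (s : Finset ℤ) (w : ℤ → ℂ)
    (ζ : Fin l → ℤ) (hp : 0 < p) :
    G q E s w ζ = ∑ c ∈ Finset.range p, G q E (cl p (c : ℤ) s) w ζ := by
  unfold G
  have hp' : (0 : ℤ) < (p : ℤ) := by exact_mod_cast hp
  have hmap : ∀ x ∈ s, (x % (p : ℤ)).toNat ∈ Finset.range p := by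
    intro x _
    rw [Finset.mem_range]
    have h1 := Int.emod_nonneg x (ne_of_gt hp')
    have h2 := Int.emod_lt_of_pos x hp'
    omega
  rw [← Finset.sum_fiberwise_of_maps_to hmap]
  refine Finset.sum_congr rfl fun c hc => ?_
  rw [Finset.mem_range] at hc
  have hcl : s.filter (fun x => (x % (p : ℤ)).toNat = c) = cl p (c : ℤ) s := by
    unfold cl
    refine Finset.filter_congr fun x _ => ?_
    have h1 := Int.emod_nonneg x (ne_of_gt hp')
    have hcc : (c : ℤ) % (p : ℤ) = c := Int.emod_eq_of_lt (by positivity) (by exact_mod_cast hc)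
    unfold Int.ModEq
    rw [hcc]
    omega
  rw [hcl]

/-! ## The pointwise inequality -/

theorem pointwise (p : ℕ) (hp : 0 < p) (κ : ℝ) (hκ : 0 < κ) (hκ1 : κ < 1) (r : ℕ) (hr : 1 ≤ r)
    (F : ℕ → ℂ) :
    ‖∑ c ∈ Finset.range p, F c‖ ^ (2 * r) ≤
      ((1 - κ) ^ (2 * r))⁻¹ * (∑ c ∈ Finset.range p, ‖F c‖ ^ (2 * r)) +
        (((p : ℝ) / κ) ^ 2 * (p : ℝ) ^ (2 * (r - 1))) *
          ∑ c ∈ Finset.range p, ∑ c' ∈ (Finset.range p).filter (fun c' => c' ≠ c),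
            ‖F c‖ ^ 2 * ‖F c'‖ ^ (2 * (r - 1)) := by
  set A : ℝ := ‖∑ c ∈ Finset.range p, F c‖ with hA
  have hA0 : 0 ≤ A := norm_nonneg _
  have hpR : (0 : ℝ) < (p : ℝ) := by exact_mod_cast hp
  have hk1 : 0 < 1 - κ := by linarith
  have hAle : A ≤ ∑ c ∈ Finset.range p, ‖F c‖ := norm_sum_le _ _
  have hne : (Finset.range p).Nonempty := ⟨0, Finset.mem_range.mpr hp⟩
  obtain ⟨i, hi, hmax⟩ := Finset.exists_max_image (Finset.range p) (fun c => ‖F c‖) hne
  have hAi : A ≤ (p : ℝ) * ‖F i‖ := by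
    calc A ≤ ∑ c ∈ Finset.range p, ‖F c‖ := hAle
      _ ≤ ∑ c ∈ Finset.range p, ‖F i‖ := Finset.sum_le_sum fun c hc => hmax c hc
      _ = (p : ℝ) * ‖F i‖ := by
          rw [Finset.sum_const, Finset.card_range, nsmul_eq_mul]
  have hS1 : 0 ≤ ∑ c ∈ Finset.range p, ‖F c‖ ^ (2 * r) :=
    Finset.sum_nonneg fun c _ => by positivity
  have hS2 : 0 ≤ ∑ c ∈ Finset.range p, ∑ c' ∈ (Finset.range p).filter (fun c' => c' ≠ c),
      ‖F c‖ ^ 2 * ‖F c'‖ ^ (2 * (r - 1)) :=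
    Finset.sum_nonneg fun c _ => Finset.sum_nonneg fun c' _ => by positivity
  have hC : 0 ≤ (((p : ℝ) / κ) ^ 2 * (p : ℝ) ^ (2 * (r - 1))) := by positivity
  have hD : 0 ≤ ((1 - κ) ^ (2 * r))⁻¹ := by positivity
  by_cases hcase : ∀ c ∈ Finset.range p, c ≠ i → ‖F c‖ ≤ κ * A / p
  · have h1 : (1 - κ) * A ≤ ‖F i‖ := by
      have h2 : ∑ c ∈ Finset.range p, ‖F c‖ ≤ ‖F i‖ + κ * A := by
        rw [← Finset.add_sum_erase _ _ hi]
        have h3 : ∑ c ∈ (Finset.range p).erase i, ‖F c‖ ≤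
            ∑ c ∈ (Finset.range p).erase i, κ * A / p :=
          Finset.sum_le_sum fun c hc =>
            hcase c (Finset.mem_of_mem_erase hc) (Finset.ne_of_mem_erase hc)
        have h4 : ∑ c ∈ (Finset.range p).erase i, κ * A / p ≤ κ * A := by
          rw [Finset.sum_const, nsmul_eq_mul]
          have h5 : (((Finset.range p).erase i).card : ℝ) ≤ p := by
            have := Finset.card_le_card (Finset.erase_subset i (Finset.range p))
            rw [Finset.card_range] at this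
            exact_mod_cast this
          have h6 : 0 ≤ κ * A / p := by positivity
          calc (((Finset.range p).erase i).card : ℝ) * (κ * A / p) ≤ p * (κ * A / p) :=
                mul_le_mul_of_nonneg_right h5 h6
            _ = κ * A := by field_simp
        linarith
      linarith
    have h2 : A ^ (2 * r) ≤ ((1 - κ) ^ (2 * r))⁻¹ * ‖F i‖ ^ (2 * r) := by
      have h3 : ((1 - κ) * A) ^ (2 * r) ≤ ‖F i‖ ^ (2 * r) :=
        pow_le_pow_left₀ (by positivity) h1 _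
      rw [mul_pow] at h3
      have h4 : 0 < (1 - κ) ^ (2 * r) := by positivity
      rw [inv_mul_eq_div, le_div_iff₀ h4]
      linarith
    have h3 : ‖F i‖ ^ (2 * r) ≤ ∑ c ∈ Finset.range p, ‖F c‖ ^ (2 * r) :=
      Finset.single_le_sum (f := fun c => ‖F c‖ ^ (2 * r)) (fun c _ => by positivity) hi
    have h4 := mul_le_mul_of_nonneg_left h3 hD
    have h5 := mul_nonneg hC hS2
    linarith
  · push Not at hcase
    obtain ⟨j, hj, hji, hlt⟩ := hcase
    have h1 : A ≤ (p : ℝ) / κ * ‖F j‖ := by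
      have h2 : κ * A ≤ p * ‖F j‖ := by
        have := mul_le_mul_of_nonneg_left hlt.le hpR.le
        calc κ * A = p * (κ * A / p) := by field_simp
          _ ≤ p * ‖F j‖ := this
      rw [div_mul_eq_mul_div, le_div_iff₀ hκ]
      linarith
    have h2 : A ^ (2 * r) ≤ (((p : ℝ) / κ) ^ 2 * (p : ℝ) ^ (2 * (r - 1))) *
        (‖F j‖ ^ 2 * ‖F i‖ ^ (2 * (r - 1))) := by
      have h3 : A ^ (2 * r) = A ^ 2 * A ^ (2 * (r - 1)) := by
        rw [← pow_add]
        congr 1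
        omega
      rw [h3]
      have h4 : A ^ 2 ≤ ((p : ℝ) / κ * ‖F j‖) ^ 2 := pow_le_pow_left₀ hA0 h1 _
      have h5 : A ^ (2 * (r - 1)) ≤ ((p : ℝ) * ‖F i‖) ^ (2 * (r - 1)) :=
        pow_le_pow_left₀ hA0 hAi _
      calc A ^ 2 * A ^ (2 * (r - 1)) ≤
            ((p : ℝ) / κ * ‖F j‖) ^ 2 * ((p : ℝ) * ‖F i‖) ^ (2 * (r - 1)) :=
            mul_le_mul h4 h5 (by positivity) (by positivity)
        _ = _ := by
            rw [mul_pow, mul_pow]
            ring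
    have h3 : ‖F j‖ ^ 2 * ‖F i‖ ^ (2 * (r - 1)) ≤
        ∑ c ∈ Finset.range p, ∑ c' ∈ (Finset.range p).filter (fun c' => c' ≠ c),
          ‖F c‖ ^ 2 * ‖F c'‖ ^ (2 * (r - 1)) := by
      have h4 : ‖F j‖ ^ 2 * ‖F i‖ ^ (2 * (r - 1)) ≤
          ∑ c' ∈ (Finset.range p).filter (fun c' => c' ≠ j),
            ‖F j‖ ^ 2 * ‖F c'‖ ^ (2 * (r - 1)) :=
        Finset.single_le_sum (f := fun c' => ‖F j‖ ^ 2 * ‖F c'‖ ^ (2 * (r - 1)))
          (fun c _ => by positivity) (Finset.mem_filter.mpr ⟨hi, fun h => hji h.symm⟩)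
      refine h4.trans ?_
      exact Finset.single_le_sum
        (f := fun c => ∑ c' ∈ (Finset.range p).filter (fun c' => c' ≠ c),
          ‖F c‖ ^ 2 * ‖F c'‖ ^ (2 * (r - 1)))
        (fun c _ => Finset.sum_nonneg fun c' _ => by positivity) hj
    have h4 := mul_le_mul_of_nonneg_left h3 hC
    have h5 := mul_nonneg hD hS1
    linarith

/-! ## Sums of powers -/

theorem mom_nonneg (q : ℕ) {l : ℕ} (E : Fin l → ℤ → ℤ) (r : ℕ) (s : Finset ℤ) (w : ℤ → ℂ) :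
    0 ≤ mom q E r s w := av_nonneg _ _ _ fun ζ => by positivity

theorem sq_nonneg' (q : ℕ) {l : ℕ} (E : Fin l → ℤ → ℤ) (r m : ℕ) (s : Finset ℤ) (w : ℤ → ℂ) :
    0 ≤ Sq q E r m s w :=
  Finset.sum_nonneg fun _ _ => Real.rpow_nonneg (mom_nonneg _ _ _ _ _) _

theorem sum_pow_le (T : Finset ℕ) (X : ℕ → ℝ) (h : ∀ c ∈ T, 0 ≤ X c) (r : ℕ) (hr : 1 ≤ r) :
    ∑ c ∈ T, X c ^ r ≤ (∑ c ∈ T, X c) ^ r := by
  obtain ⟨r, rfl⟩ := Nat.exists_eq_add_of_le hr
  have hS : 0 ≤ ∑ c ∈ T, X c := Finset.sum_nonneg h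
  calc ∑ c ∈ T, X c ^ (1 + r) = ∑ c ∈ T, X c * X c ^ r := by
        refine Finset.sum_congr rfl fun c _ => ?_
        rw [pow_add, pow_one]
    _ ≤ ∑ c ∈ T, X c * (∑ c ∈ T, X c) ^ r := by
        refine Finset.sum_le_sum fun c hc => ?_
        exact mul_le_mul_of_nonneg_left
          (pow_le_pow_left₀ (h c hc) (Finset.single_le_sum h hc) _) (h c hc)
    _ = (∑ c ∈ T, X c) ^ (1 + r) := by
        rw [← Finset.sum_mul, pow_add, pow_one]

theorem tri_one : tri 1 = 1 := by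
  unfold tri
  norm_num

theorem tri_ge (k : ℕ) (hk : 2 ≤ k) : 3 ≤ tri k := by
  unfold tri
  have : 2 * 3 ≤ k * (k + 1) := Nat.mul_le_mul hk (by omega)
  omega

theorem inCl_cl (m : ℕ) (c : ℤ) (s : Finset ℤ) : InCl m c (cl m c s) := by
  intro x hx
  exact (Finset.mem_filter.mp hx).2

theorem lmc (p k : ℕ) (hp : p.Prime) (hk : 2 ≤ k) (res : ResStmt p k) (sqn : SqnStmt) :
    LmcStmt p k := by
  intro κ hκ hκ1
  have hp0 : 0 < p := hp.pos
  have hpR : (0 : ℝ) < (p : ℝ) := by exact_mod_cast hp0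
  have hr3 := tri_ge k hk
  refine ⟨((p : ℝ) / κ) ^ 2 * (p : ℝ) ^ (2 * (tri k - 1)), by positivity, ?_⟩
  intro n D B hD hB hn hDec hBil s w
  set q := p ^ (k * n) with hq
  have hq0 : 0 < q := by positivity
  set C := ((p : ℝ) / κ) ^ 2 * (p : ℝ) ^ (2 * (tri k - 1)) with hC
  have hC0 : 0 ≤ C := by positivity
  have hE0 : 0 ≤ ((1 - κ) ^ (2 * tri k))⁻¹ := by
    have : 0 < 1 - κ := by linarith
    positivity
  set f : ℕ → (Fin k → ℤ) → ℂ := fun c ζ => G q (mc 0 k) (cl p (c : ℤ) s) w ζ with hf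
  set X : ℕ → ℝ := fun c => Sq q (mc 0 k) (tri k) (p ^ n) (cl p (c : ℤ) s) w with hX
  have hX0 : ∀ c, 0 ≤ X c := fun c => sq_nonneg' _ _ _ _ _ _
  have hpn : p ∣ p ^ n := dvd_pow_self p (by omega)
  have hsum : ∑ c ∈ Finset.range p, X c = Sq q (mc 0 k) (tri k) (p ^ n) s w :=
    sqn q k (mc 0 k) (tri k) p (p ^ n) s w hq0 (by omega) hp0 (by positivity) hpn
  -- the average of the pointwise inequality
  have h1 : mom q (mc 0 k) (tri k) s w ≤
      ((1 - κ) ^ (2 * tri k))⁻¹ *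
        (∑ c ∈ Finset.range p, Av q k (fun ζ => ‖f c ζ‖ ^ (2 * tri k))) +
      C * ∑ c ∈ Finset.range p, ∑ c' ∈ (Finset.range p).filter (fun c' => c' ≠ c),
        Av q k (fun ζ => ‖f c ζ‖ ^ 2 * ‖f c' ζ‖ ^ (2 * (tri k - 1))) := by
    unfold mom
    refine (av_mono q k _ (fun ζ => ((1 - κ) ^ (2 * tri k))⁻¹ *
          (∑ c ∈ Finset.range p, ‖f c ζ‖ ^ (2 * tri k)) +
        C * ∑ c ∈ Finset.range p, ∑ c' ∈ (Finset.range p).filter (fun c' => c' ≠ c),
          ‖f c ζ‖ ^ 2 * ‖f c' ζ‖ ^ (2 * (tri k - 1))) (fun ζ => ?_)).trans (le_of_eq ?_)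
    · have h := pointwise p hp0 κ hκ hκ1 (tri k) (by omega) (fun c => f c ζ)
      rw [g_split p q (mc 0 k) s w ζ hp0]
      exact h
    · rw [av_add, av_smul, av_smul, av_sum, av_sum]
      congr 2
      refine Finset.sum_congr rfl fun c _ => ?_
      rw [av_sum]
  -- the diagonal part
  have hnn : n - 1 + 1 = n := by omega
  have h2 : ∀ c ∈ Finset.range p, Av q k (fun ζ => ‖f c ζ‖ ^ (2 * tri k)) ≤
      D * X c ^ tri k := by
    intro c _
    have h := res (n - 1) 1 D hD hDec (c : ℤ) (cl p (c : ℤ) s) w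
      (by rw [pow_one]; exact inCl_cl p (c : ℤ) s)
    rw [hnn] at h
    exact h
  -- the off-diagonal part
  have h3 : ∀ c ∈ Finset.range p, ∀ c' ∈ (Finset.range p).filter (fun c' => c' ≠ c),
      Av q k (fun ζ => ‖f c ζ‖ ^ 2 * ‖f c' ζ‖ ^ (2 * (tri k - 1))) ≤
        B * (X c * X c' ^ (tri k - 1)) := by
    intro c hc c' hc'
    rw [Finset.mem_filter] at hc'
    have hcp : c < p := Finset.mem_range.mp hc
    have hcp' : c' < p := Finset.mem_range.mp hc'.1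
    have hnc : ¬ (c : ℤ) ≡ (c' : ℤ) [ZMOD (p : ℤ)] := by
      intro h
      rw [Int.natCast_modEq_iff] at h
      have := Nat.ModEq.eq_of_lt_of_lt h hcp hcp'
      exact hc'.2 this.symm
    have h := hBil (c : ℤ) (c' : ℤ) hnc (cl p (c : ℤ) s) (cl p (c' : ℤ) s) w w
      (by rw [pow_one]; exact inCl_cl p (c : ℤ) s)
      (by rw [pow_one]; exact inCl_cl p (c' : ℤ) s)
    rw [tri_one, mul_one, pow_one] at h
    refine h.trans (le_of_eq ?_)
    rw [hX]
    ring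
  have h4 : ∑ c ∈ Finset.range p, Av q k (fun ζ => ‖f c ζ‖ ^ (2 * tri k)) ≤
      D * (Sq q (mc 0 k) (tri k) (p ^ n) s w) ^ tri k := by
    calc _ ≤ ∑ c ∈ Finset.range p, D * X c ^ tri k := Finset.sum_le_sum h2
      _ = D * ∑ c ∈ Finset.range p, X c ^ tri k := by rw [Finset.mul_sum]
      _ ≤ D * (∑ c ∈ Finset.range p, X c) ^ tri k :=
          mul_le_mul_of_nonneg_left (sum_pow_le _ X (fun c _ => hX0 c) _ (by omega)) hD
      _ = _ := by rw [hsum]
  have h5 : ∑ c ∈ Finset.range p, ∑ c' ∈ (Finset.range p).filter (fun c' => c' ≠ c),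
        Av q k (fun ζ => ‖f c ζ‖ ^ 2 * ‖f c' ζ‖ ^ (2 * (tri k - 1))) ≤
      B * (Sq q (mc 0 k) (tri k) (p ^ n) s w) ^ tri k := by
    have hS0 : 0 ≤ ∑ c ∈ Finset.range p, X c := Finset.sum_nonneg fun c _ => hX0 c
    calc _ ≤ ∑ c ∈ Finset.range p, ∑ c' ∈ (Finset.range p).filter (fun c' => c' ≠ c),
          B * (X c * X c' ^ (tri k - 1)) :=
          Finset.sum_le_sum fun c hc => Finset.sum_le_sum fun c' hc' => h3 c hc c' hc'
      _ ≤ ∑ c ∈ Finset.range p, ∑ c' ∈ Finset.range p, B * (X c * X c' ^ (tri k - 1)) := by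
          refine Finset.sum_le_sum fun c _ => ?_
          refine Finset.sum_le_sum_of_subset_of_nonneg (Finset.filter_subset _ _) ?_
          intro c' _ _
          have := hX0 c
          have := hX0 c'
          positivity
      _ = B * ((∑ c ∈ Finset.range p, X c) * ∑ c' ∈ Finset.range p, X c' ^ (tri k - 1)) := by
          rw [Finset.sum_mul, Finset.mul_sum]
          refine Finset.sum_congr rfl fun c _ => ?_
          rw [Finset.mul_sum, Finset.mul_sum]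
      _ ≤ B * ((∑ c ∈ Finset.range p, X c) * (∑ c' ∈ Finset.range p, X c') ^ (tri k - 1)) := by
          refine mul_le_mul_of_nonneg_left ?_ hB
          refine mul_le_mul_of_nonneg_left ?_ hS0
          exact sum_pow_le _ X (fun c _ => hX0 c) _ (by omega)
      _ = B * (Sq q (mc 0 k) (tri k) (p ^ n) s w) ^ tri k := by
          rw [hsum]
          congr 1
          obtain ⟨r', hr'⟩ : ∃ r', tri k = r' + 1 := ⟨tri k - 1, by omega⟩
          generalize Sq q (mc 0 k) (tri k) (p ^ n) s w = Y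
          rw [hr', Nat.add_sub_cancel, pow_succ]
          ring
  calc mom q (mc 0 k) (tri k) s w ≤ _ := h1
    _ ≤ ((1 - κ) ^ (2 * tri k))⁻¹ * (D * (Sq q (mc 0 k) (tri k) (p ^ n) s w) ^ tri k) +
        C * (B * (Sq q (mc 0 k) (tri k) (p ^ n) s w) ^ tri k) :=
        add_le_add (mul_le_mul_of_nonneg_left h4 hE0) (mul_le_mul_of_nonneg_left h5 hC0)
    _ = _ := by ring

end Pool.Agent.VM.H36
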